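import Pool.Agent.W898.WM.PL

set_option autoImplicit false

open MeasureTheory Filter Topology Set FourierTransform

namespace Pool.Agent.W90.WM

open Pool.Agent.W120.WM Pool.Agent.W898.WM

theorem pl2 (δ h : ℝ) (hδ : 0 < δ) (hh : 0 < h)
    (h1 : ∀ v : ℝ, Integrable (fun t : ℝ => GG h v (⟨1 / 2 + δ, t⟩ : ℂ)) ∧
      ((Sm h v : ℝ) : ℂ) = ((2 * Real.pi : ℝ) : ℂ)⁻¹ * ∫ t : ℝ, GG h v (⟨1 / 2 + δ, t⟩ : ℂ))
    (h2 : ∫⁻ t : ℝ, ‖GG h 0 (⟨1 / 2 + δ, t⟩ : ℂ)‖ₑ ^ 2 ≠ ⊤) :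
    ∫⁻ v : ℝ, ENNReal.ofReal (Sm h v ^ 2 * Real.exp (-((1 + 2 * δ) * v))) ≤
      ENNReal.ofReal (1 / (2 * Real.pi)) * ∫⁻ t : ℝ, ‖GG h 0 (⟨1 / 2 + δ, t⟩ : ℂ)‖ₑ ^ 2 := by
  have hinv := h1
  have hfin := h2
  clear h1 h2
  set g : ℝ → ℂ := fun t : ℝ => GG h 0 (⟨1 / 2 + δ, t⟩ : ℂ) with hg
  have h1 : Integrable g := (hinv 0).1
  have h2 : MemLp g 2 := by
    refine ⟨h1.1, ?_⟩
    rw [eLpNorm_lt_top_iff_lintegral_rpow_enorm_lt_top (by norm_num) (by norm_num)]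
    have : (∫⁻ a : ℝ, ‖g a‖ₑ ^ (2 : ENNReal).toReal) = ∫⁻ a : ℝ, ‖g a‖ₑ ^ 2 := by
      congr 1
      funext a
      rw [ENNReal.toReal_ofNat]
      exact_mod_cast ENNReal.rpow_natCast _ 2
    rw [this]
    exact lt_top_iff_ne_top.2 hfin
  have hpl := Pool.Agent.Helper76.NormalHP.plancherel_lintegral g h1 h2
  have hkey : ∀ v : ℝ, ((Sm h v : ℝ) : ℂ) = ((2 * Real.pi : ℝ) : ℂ)⁻¹ *
      ((Real.exp ((1 / 2 + δ) * v) : ℝ) : ℂ) * 𝓕 g (-(2 * Real.pi)⁻¹ * v) := by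
    intro v
    rw [(hinv v).2, mul_assoc]
    congr 1
    rw [Real.fourier_eq', ← integral_const_mul]
    congr 1
    funext t
    rw [GG_shift, smul_eq_mul]
    have e : Complex.exp ((v : ℂ) * (⟨1 / 2 + δ, t⟩ : ℂ)) =
        ((Real.exp ((1 / 2 + δ) * v) : ℝ) : ℂ) * Complex.exp (((-2 * Real.pi * inner ℝ t (-(2 * Real.pi)⁻¹ * v) : ℝ) : ℂ) * Complex.I) := by
      rw [Complex.ofReal_exp, ← Complex.exp_add]
      congr 1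
      have hpi : Real.pi ≠ 0 := Real.pi_ne_zero
      apply Complex.ext
      · simp
        ring
      · simp
        field_simp
    rw [e]
    ring
  have hpt : ∀ v : ℝ, ENNReal.ofReal (Sm h v ^ 2 * Real.exp (-((1 + 2 * δ) * v))) =
      ENNReal.ofReal (((2 * Real.pi) ^ 2)⁻¹) * ‖𝓕 g (-(2 * Real.pi)⁻¹ * v)‖ₑ ^ 2 := by
    intro v
    rw [← ofReal_norm, ← ENNReal.ofReal_pow (norm_nonneg _), ← ENNReal.ofReal_mul (by positivity)]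
    congr 1
    have hn : |Sm h v| = (2 * Real.pi)⁻¹ * Real.exp ((1 / 2 + δ) * v) * ‖𝓕 g (-(2 * Real.pi)⁻¹ * v)‖ := by
      have := congrArg norm (hkey v)
      rw [norm_mul, norm_mul, norm_inv, Complex.norm_real, Complex.norm_real, Complex.norm_real,
        Real.norm_eq_abs, Real.norm_eq_abs, Real.norm_eq_abs, abs_of_pos (by positivity : 0 < 2 * Real.pi),
        abs_of_pos (Real.exp_pos _)] at this
      exact this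
    rw [← sq_abs (Sm h v), hn]
    have he : Real.exp ((1 / 2 + δ) * v) ^ 2 * Real.exp (-((1 + 2 * δ) * v)) = 1 := by
      rw [← Real.exp_nat_mul, ← Real.exp_add]
      rw [show (((2 : ℕ) : ℝ) * ((1 / 2 + δ) * v) + -((1 + 2 * δ) * v)) = 0 by push_cast; ring, Real.exp_zero]
    calc ((2 * Real.pi)⁻¹ * Real.exp ((1 / 2 + δ) * v) * ‖𝓕 g (-(2 * Real.pi)⁻¹ * v)‖) ^ 2 *
          Real.exp (-((1 + 2 * δ) * v)) = ((2 * Real.pi) ^ 2)⁻¹ * ‖𝓕 g (-(2 * Real.pi)⁻¹ * v)‖ ^ 2 *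
          (Real.exp ((1 / 2 + δ) * v) ^ 2 * Real.exp (-((1 + 2 * δ) * v))) := by ring
      _ = ((2 * Real.pi) ^ 2)⁻¹ * ‖𝓕 g (-(2 * Real.pi)⁻¹ * v)‖ ^ 2 := by rw [he, mul_one]
  have hpi2 : -(2 * Real.pi)⁻¹ ≠ 0 := by
    have := Real.pi_pos
    rw [neg_ne_zero]
    positivity
  calc ∫⁻ v : ℝ, ENNReal.ofReal (Sm h v ^ 2 * Real.exp (-((1 + 2 * δ) * v)))
      = ∫⁻ v : ℝ, ENNReal.ofReal (((2 * Real.pi) ^ 2)⁻¹) * ‖𝓕 g (-(2 * Real.pi)⁻¹ * v)‖ₑ ^ 2 := by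
        congr 1
        funext v
        exact hpt v
    _ = ENNReal.ofReal (((2 * Real.pi) ^ 2)⁻¹) * ∫⁻ v : ℝ, ‖𝓕 g (-(2 * Real.pi)⁻¹ * v)‖ₑ ^ 2 :=
        lintegral_const_mul' _ _ ENNReal.ofReal_ne_top
    _ = ENNReal.ofReal (((2 * Real.pi) ^ 2)⁻¹) * (ENNReal.ofReal |(-(2 * Real.pi)⁻¹)⁻¹| *
        ∫⁻ x : ℝ, ‖𝓕 g x‖ₑ ^ 2) := by
        rw [scale (fun x => ‖𝓕 g x‖ₑ ^ 2) _ hpi2]
    _ = ENNReal.ofReal (((2 * Real.pi) ^ 2)⁻¹ * |(-(2 * Real.pi)⁻¹)⁻¹|) * ∫⁻ t : ℝ, ‖g t‖ₑ ^ 2 := by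
        rw [← mul_assoc, ← ENNReal.ofReal_mul (by positivity), hpl]
    _ ≤ ENNReal.ofReal (1 / (2 * Real.pi)) * ∫⁻ t : ℝ, ‖g t‖ₑ ^ 2 := by
        gcongr
        have hp := Real.pi_gt_three
        have hpos : 0 < 2 * Real.pi := by linarith
        rw [inv_neg, inv_inv, abs_neg, abs_of_pos hpos, one_div]
        exact le_of_eq (by field_simp)

end Pool.Agent.W90.WM
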